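import Pool.Agent.helper12.GP.Pm

/-!
Generated: constants of the corner programs of the table E6a.
-/

namespace Pool.Agent.helper12.KC

open Pool.Agent.helper31.IA (Z)
open Pool.Agent.helper12.GP

def p0 : Pm where
  ec := ⟨154618822656, 0, 0, 0⟩
  bc := ⟨0, 0, 0, 0⟩
  nn := ⟨1099511627776, 0, 0, 0⟩
  tj := ⟨4398046511104, 0, 0, 0⟩
  ca := ⟨1099511627776, 0, 0, 0⟩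
  cb := ⟨879662989312, 0, 0, 0⟩
  cc := ⟨0, 0, 0, 0⟩
  ax := ⟨0, 0, 0, 0⟩
  ay := ⟨0, 0, 0, 0⟩
  xa := ⟨0, 0, 0, 0⟩
  C2 := ⟨0, 0, 0, 0⟩
  wr := ⟨0, 0, 0, 0⟩
  wi := ⟨0, 0, 0, 0⟩
  w1 := ⟨0, 0, 0, 0⟩
  h000 := ⟨0, 2968503040, 0, 0⟩
  h001 := ⟨82447539520, 0, 0, 0⟩
  h002 := ⟨0, 5646599424, 0, 0⟩
  h003 := ⟨0, 92369423040, 0, 0⟩
  h010 := ⟨100483616448, 0, 0, 0⟩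
  h011 := ⟨935297971136, 0, 0, 0⟩
  h012 := ⟨0, 1451618247360, 0, 0⟩
  h020 := ⟨0, 780207476416, 0, 0⟩
  h021 := ⟨21566163662784, 0, 0, 0⟩
  h030 := ⟨0, 162452628683328, 0, 0⟩
  h100 := ⟨25231065216, 0, 0, 0⟩
  h101 := ⟨0, 25745611520, 0, 0⟩
  h102 := ⟨1302757568, 0, 0, 0⟩
  h110 := ⟨81971049536, 0, 0, 0⟩
  h111 := ⟨0, 274386911168, 0, 0⟩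
  h120 := ⟨264568529664, 0, 0, 0⟩
  h200 := ⟨0, 8715824640, 0, 0⟩
  h201 := ⟨2316925056, 0, 0, 0⟩
  h210 := ⟨0, 18002107392, 0, 0⟩
  h300 := ⟨1151753728, 0, 0, 0⟩
  h400 := ⟨0, 73452288, 0, 0⟩
  m000 := ⟨1082719862784, 0, 0, 0⟩
  m001 := ⟨0, 10323034112, 0, 0⟩
  m002 := ⟨146591318016, 0, 0, 0⟩
  m010 := ⟨147549978624, 0, 0, 0⟩
  m100 := ⟨99403694080, 0, 0, 0⟩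
  m101 := ⟨5895684096, 0, 0, 0⟩
  m110 := ⟨668423225344, 0, 0, 0⟩
  m200 := ⟨0, 5731450880, 0, 0⟩
  m300 := ⟨293076992, 0, 0, 0⟩
  a00 := ⟨108696043520, 0, 0, 0⟩
  a01 := ⟨175417131008, 0, 0, 0⟩
  a02 := ⟨0, 1786151895040, 0, 0⟩
  a03 := ⟨5107476463616, 0, 0, 0⟩
  a10 := ⟨0, 104393342976, 0, 0⟩
  a11 := ⟨0, 1211855601664, 0, 0⟩
  b00 := ⟨97227767808, 0, 0, 0⟩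
  b01 := ⟨108520800256, 0, 0, 0⟩
  b02 := ⟨0, 1316657299456, 0, 0⟩
  b03 := ⟨3657404383232, 0, 0, 0⟩
  b10 := ⟨0, 12524126208, 0, 0⟩
  b11 := ⟨0, 939165286400, 0, 0⟩
  t00 := ⟨1176915083264, 0, 0, 0⟩
  t01 := ⟨478896848896, 0, 0, 0⟩
  t02 := ⟨0, 5800811036672, 0, 0⟩
  t03 := ⟨19249485316096, 0, 0, 0⟩
  t10 := ⟨0, 2160647340032, 0, 0⟩
  t11 := ⟨1713881939968, 0, 0, 0⟩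
  s00 := ⟨1395493830656, 0, 0, 0⟩
  s01 := ⟨2310957563904, 0, 0, 0⟩
  s02 := ⟨3309934411776, 0, 0, 0⟩
  s03 := ⟨0, 16700142649344, 0, 0⟩
  s10 := ⟨0, 1086992220160, 0, 0⟩
  s11 := ⟨0, 2425737773056, 0, 0⟩
  g00 := ⟨0, 0, 0, 0⟩
  g01 := ⟨0, 0, 0, 0⟩
  g10 := ⟨0, 0, 0, 0⟩
  g11 := ⟨0, 0, 0, 0⟩
  f00 := ⟨0, 0, 0, 0⟩
  f01 := ⟨0, 0, 0, 0⟩
  f10 := ⟨0, 0, 0, 0⟩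
  f11 := ⟨0, 0, 0, 0⟩
  l000 := ⟨0, 0, 0, 0⟩
  l001 := ⟨0, 0, 0, 0⟩
  l002 := ⟨0, 0, 0, 0⟩
  l010 := ⟨0, 0, 0, 0⟩
  l011 := ⟨0, 0, 0, 0⟩
  l020 := ⟨0, 0, 0, 0⟩
  l100 := ⟨0, 0, 0, 0⟩
  l101 := ⟨0, 0, 0, 0⟩
  l102 := ⟨0, 0, 0, 0⟩
  l110 := ⟨0, 0, 0, 0⟩
  l111 := ⟨0, 0, 0, 0⟩
  l120 := ⟨0, 0, 0, 0⟩
  l200 := ⟨0, 0, 0, 0⟩
  l201 := ⟨0, 0, 0, 0⟩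
  l210 := ⟨0, 0, 0, 0⟩
  l300 := ⟨0, 0, 0, 0⟩
  l301 := ⟨0, 0, 0, 0⟩
  l310 := ⟨0, 0, 0, 0⟩
  l400 := ⟨0, 0, 0, 0⟩
  l401 := ⟨0, 0, 0, 0⟩
  l410 := ⟨0, 0, 0, 0⟩
  l500 := ⟨0, 0, 0, 0⟩
  l600 := ⟨0, 0, 0, 0⟩
  l700 := ⟨0, 0, 0, 0⟩
  q00 := ⟨0, 0, 0, 0⟩
  q01 := ⟨0, 0, 0, 0⟩
  q02 := ⟨0, 0, 0, 0⟩
  q03 := ⟨0, 0, 0, 0⟩
  q10 := ⟨0, 0, 0, 0⟩
  q11 := ⟨0, 0, 0, 0⟩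
  q12 := ⟨0, 0, 0, 0⟩
  q20 := ⟨0, 0, 0, 0⟩
  q21 := ⟨0, 0, 0, 0⟩
  q30 := ⟨0, 0, 0, 0⟩
  n000 := ⟨0, 0, 0, 0⟩
  n001 := ⟨0, 0, 0, 0⟩
  n002 := ⟨0, 0, 0, 0⟩
  n010 := ⟨0, 0, 0, 0⟩
  n011 := ⟨0, 0, 0, 0⟩
  n020 := ⟨0, 0, 0, 0⟩
  n100 := ⟨0, 0, 0, 0⟩
  n101 := ⟨0, 0, 0, 0⟩
  n110 := ⟨0, 0, 0, 0⟩
  n200 := ⟨0, 0, 0, 0⟩
  n201 := ⟨0, 0, 0, 0⟩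
  n210 := ⟨0, 0, 0, 0⟩
  n300 := ⟨0, 0, 0, 0⟩
  n400 := ⟨0, 0, 0, 0⟩
  n500 := ⟨0, 0, 0, 0⟩
  e00 := ⟨0, 0, 0, 0⟩
  e01 := ⟨0, 0, 0, 0⟩
  e02 := ⟨0, 0, 0, 0⟩
  e03 := ⟨0, 0, 0, 0⟩
  e10 := ⟨0, 0, 0, 0⟩
  e11 := ⟨0, 0, 0, 0⟩
  B1 := 0

def p1 : Pm where
  ec := ⟨154618822656, 0, 0, 0⟩
  bc := ⟨0, 0, 0, 0⟩
  nn := ⟨2199023255552, 0, 0, 0⟩
  tj := ⟨6597069766656, 0, 0, 0⟩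
  ca := ⟨879662989312, 0, 0, 0⟩
  cb := ⟨659814350848, 0, 0, 0⟩
  cc := ⟨0, 0, 0, 0⟩
  ax := ⟨0, 0, 0, 0⟩
  ay := ⟨0, 0, 0, 0⟩
  xa := ⟨0, 0, 0, 0⟩
  C2 := ⟨0, 0, 0, 0⟩
  wr := ⟨0, 0, 0, 0⟩
  wi := ⟨0, 0, 0, 0⟩
  w1 := ⟨0, 0, 0, 0⟩
  h000 := ⟨0, 2968503040, 0, 0⟩
  h001 := ⟨82447539520, 0, 0, 0⟩
  h002 := ⟨0, 5646599424, 0, 0⟩
  h003 := ⟨0, 92369423040, 0, 0⟩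
  h010 := ⟨100483616448, 0, 0, 0⟩
  h011 := ⟨935297971136, 0, 0, 0⟩
  h012 := ⟨0, 1451618247360, 0, 0⟩
  h020 := ⟨0, 780207476416, 0, 0⟩
  h021 := ⟨21566163662784, 0, 0, 0⟩
  h030 := ⟨0, 162452628683328, 0, 0⟩
  h100 := ⟨25231065216, 0, 0, 0⟩
  h101 := ⟨0, 25745611520, 0, 0⟩
  h102 := ⟨1302757568, 0, 0, 0⟩
  h110 := ⟨81971049536, 0, 0, 0⟩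
  h111 := ⟨0, 274386911168, 0, 0⟩
  h120 := ⟨264568529664, 0, 0, 0⟩
  h200 := ⟨0, 8715824640, 0, 0⟩
  h201 := ⟨2316925056, 0, 0, 0⟩
  h210 := ⟨0, 18002107392, 0, 0⟩
  h300 := ⟨1151753728, 0, 0, 0⟩
  h400 := ⟨0, 73452288, 0, 0⟩
  m000 := ⟨1086909644800, 0, 0, 0⟩
  m001 := ⟨0, 8512667648, 0, 0⟩
  m002 := ⟨132819517440, 0, 0, 0⟩
  m010 := ⟨92462776320, 0, 0, 0⟩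
  m100 := ⟨95272370176, 0, 0, 0⟩
  m101 := ⟨4059561984, 0, 0, 0⟩
  m110 := ⟨646398738432, 0, 0, 0⟩
  m200 := ⟨0, 4485611520, 0, 0⟩
  m300 := ⟨168755200, 0, 0, 0⟩
  a00 := ⟨97227767808, 0, 0, 0⟩
  a01 := ⟨108520800256, 0, 0, 0⟩
  a02 := ⟨0, 1316657299456, 0, 0⟩
  a03 := ⟨3657404383232, 0, 0, 0⟩
  a10 := ⟨0, 12524126208, 0, 0⟩
  a11 := ⟨0, 939165286400, 0, 0⟩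
  b00 := ⟨86742925312, 0, 0, 0⟩
  b01 := ⟨55447388160, 0, 0, 0⟩
  b02 := ⟨0, 933292867584, 0, 0⟩
  b03 := ⟨2541502201856, 0, 0, 0⟩
  b10 := ⟨69981306880, 0, 0, 0⟩
  b11 := ⟨0, 781185122304, 0, 0⟩
  t00 := ⟨1051092910080, 0, 0, 0⟩
  t01 := ⟨728244027392, 0, 0, 0⟩
  t02 := ⟨0, 4450495889408, 0, 0⟩
  t03 := ⟨13201851613184, 0, 0, 0⟩
  t10 := ⟨0, 1268524974080, 0, 0⟩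
  t11 := ⟨5038773239808, 0, 0, 0⟩
  s00 := ⟨2572408913920, 0, 0, 0⟩
  s01 := ⟨2789854412800, 0, 0, 0⟩
  s02 := ⟨0, 2490876624896, 0, 0⟩
  s03 := ⟨2549342666752, 0, 0, 0⟩
  s10 := ⟨0, 3247639560192, 0, 0⟩
  s11 := ⟨0, 711855833088, 0, 0⟩
  g00 := ⟨0, 0, 0, 0⟩
  g01 := ⟨0, 0, 0, 0⟩
  g10 := ⟨0, 0, 0, 0⟩
  g11 := ⟨0, 0, 0, 0⟩
  f00 := ⟨0, 0, 0, 0⟩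
  f01 := ⟨0, 0, 0, 0⟩
  f10 := ⟨0, 0, 0, 0⟩
  f11 := ⟨0, 0, 0, 0⟩
  l000 := ⟨0, 0, 0, 0⟩
  l001 := ⟨0, 0, 0, 0⟩
  l002 := ⟨0, 0, 0, 0⟩
  l010 := ⟨0, 0, 0, 0⟩
  l011 := ⟨0, 0, 0, 0⟩
  l020 := ⟨0, 0, 0, 0⟩
  l100 := ⟨0, 0, 0, 0⟩
  l101 := ⟨0, 0, 0, 0⟩
  l102 := ⟨0, 0, 0, 0⟩
  l110 := ⟨0, 0, 0, 0⟩
  l111 := ⟨0, 0, 0, 0⟩
  l120 := ⟨0, 0, 0, 0⟩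
  l200 := ⟨0, 0, 0, 0⟩
  l201 := ⟨0, 0, 0, 0⟩
  l210 := ⟨0, 0, 0, 0⟩
  l300 := ⟨0, 0, 0, 0⟩
  l301 := ⟨0, 0, 0, 0⟩
  l310 := ⟨0, 0, 0, 0⟩
  l400 := ⟨0, 0, 0, 0⟩
  l401 := ⟨0, 0, 0, 0⟩
  l410 := ⟨0, 0, 0, 0⟩
  l500 := ⟨0, 0, 0, 0⟩
  l600 := ⟨0, 0, 0, 0⟩
  l700 := ⟨0, 0, 0, 0⟩
  q00 := ⟨0, 0, 0, 0⟩
  q01 := ⟨0, 0, 0, 0⟩
  q02 := ⟨0, 0, 0, 0⟩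
  q03 := ⟨0, 0, 0, 0⟩
  q10 := ⟨0, 0, 0, 0⟩
  q11 := ⟨0, 0, 0, 0⟩
  q12 := ⟨0, 0, 0, 0⟩
  q20 := ⟨0, 0, 0, 0⟩
  q21 := ⟨0, 0, 0, 0⟩
  q30 := ⟨0, 0, 0, 0⟩
  n000 := ⟨0, 0, 0, 0⟩
  n001 := ⟨0, 0, 0, 0⟩
  n002 := ⟨0, 0, 0, 0⟩
  n010 := ⟨0, 0, 0, 0⟩
  n011 := ⟨0, 0, 0, 0⟩
  n020 := ⟨0, 0, 0, 0⟩
  n100 := ⟨0, 0, 0, 0⟩
  n101 := ⟨0, 0, 0, 0⟩
  n110 := ⟨0, 0, 0, 0⟩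
  n200 := ⟨0, 0, 0, 0⟩
  n201 := ⟨0, 0, 0, 0⟩
  n210 := ⟨0, 0, 0, 0⟩
  n300 := ⟨0, 0, 0, 0⟩
  n400 := ⟨0, 0, 0, 0⟩
  n500 := ⟨0, 0, 0, 0⟩
  e00 := ⟨0, 0, 0, 0⟩
  e01 := ⟨0, 0, 0, 0⟩
  e02 := ⟨0, 0, 0, 0⟩
  e03 := ⟨0, 0, 0, 0⟩
  e10 := ⟨0, 0, 0, 0⟩
  e11 := ⟨0, 0, 0, 0⟩
  B1 := 0

def p2 : Pm where
  ec := ⟨154618822656, 0, 0, 0⟩
  bc := ⟨0, 0, 0, 0⟩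
  nn := ⟨3298534883328, 0, 0, 0⟩
  tj := ⟨8796093022208, 0, 0, 0⟩
  ca := ⟨659814350848, 0, 0, 0⟩
  cb := ⟨494726545408, 0, 0, 0⟩
  cc := ⟨0, 0, 0, 0⟩
  ax := ⟨0, 0, 0, 0⟩
  ay := ⟨0, 0, 0, 0⟩
  xa := ⟨0, 0, 0, 0⟩
  C2 := ⟨0, 0, 0, 0⟩
  wr := ⟨0, 0, 0, 0⟩
  wi := ⟨0, 0, 0, 0⟩
  w1 := ⟨0, 0, 0, 0⟩
  h000 := ⟨0, 2968503040, 0, 0⟩
  h001 := ⟨82447539520, 0, 0, 0⟩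
  h002 := ⟨0, 5646599424, 0, 0⟩
  h003 := ⟨0, 92369423040, 0, 0⟩
  h010 := ⟨100483616448, 0, 0, 0⟩
  h011 := ⟨935297971136, 0, 0, 0⟩
  h012 := ⟨0, 1451618247360, 0, 0⟩
  h020 := ⟨0, 780207476416, 0, 0⟩
  h021 := ⟨21566163662784, 0, 0, 0⟩
  h030 := ⟨0, 162452628683328, 0, 0⟩
  h100 := ⟨25231065216, 0, 0, 0⟩
  h101 := ⟨0, 25745611520, 0, 0⟩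
  h102 := ⟨1302757568, 0, 0, 0⟩
  h110 := ⟨81971049536, 0, 0, 0⟩
  h111 := ⟨0, 274386911168, 0, 0⟩
  h120 := ⟨264568529664, 0, 0, 0⟩
  h200 := ⟨0, 8715824640, 0, 0⟩
  h201 := ⟨2316925056, 0, 0, 0⟩
  h210 := ⟨0, 18002107392, 0, 0⟩
  h300 := ⟨1151753728, 0, 0, 0⟩
  h400 := ⟨0, 73452288, 0, 0⟩
  m000 := ⟨1090395832320, 0, 0, 0⟩
  m001 := ⟨0, 4011786240, 0, 0⟩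
  m002 := ⟨114826018816, 0, 0, 0⟩
  m010 := ⟨52763164672, 0, 0, 0⟩
  m100 := ⟨91239874560, 0, 0, 0⟩
  m101 := ⟨3429695488, 0, 0, 0⟩
  m110 := ⟨643453943808, 0, 0, 0⟩
  m200 := ⟨0, 2979594240, 0, 0⟩
  m300 := ⟨0, 35979264, 0, 0⟩
  a00 := ⟨86742925312, 0, 0, 0⟩
  a01 := ⟨55447388160, 0, 0, 0⟩
  a02 := ⟨0, 933292867584, 0, 0⟩
  a03 := ⟨2541502201856, 0, 0, 0⟩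
  a10 := ⟨69981306880, 0, 0, 0⟩
  a11 := ⟨0, 781185122304, 0, 0⟩
  b00 := ⟨77117784064, 0, 0, 0⟩
  b01 := ⟨14371520512, 0, 0, 0⟩
  b02 := ⟨0, 613994856448, 0, 0⟩
  b03 := ⟨1674923212800, 0, 0, 0⟩
  b10 := ⟨143425142784, 0, 0, 0⟩
  b11 := ⟨0, 696498716672, 0, 0⟩
  t00 := ⟨939475075072, 0, 0, 0⟩
  t01 := ⟨798824136704, 0, 0, 0⟩
  t02 := ⟨0, 2445098156032, 0, 0⟩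
  t03 := ⟨7371006738432, 0, 0, 0⟩
  t10 := ⟨0, 379002814464, 0, 0⟩
  t11 := ⟨7931706277888, 0, 0, 0⟩
  s00 := ⟨3623501824000, 0, 0, 0⟩
  s01 := ⟨3518098440192, 0, 0, 0⟩
  s02 := ⟨0, 6941372514304, 0, 0⟩
  s03 := ⟨15751194279936, 0, 0, 0⟩
  s10 := ⟨0, 4516164534272, 0, 0⟩
  s11 := ⟨4326917406720, 0, 0, 0⟩
  g00 := ⟨0, 0, 0, 0⟩
  g01 := ⟨0, 0, 0, 0⟩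
  g10 := ⟨0, 0, 0, 0⟩
  g11 := ⟨0, 0, 0, 0⟩
  f00 := ⟨0, 0, 0, 0⟩
  f01 := ⟨0, 0, 0, 0⟩
  f10 := ⟨0, 0, 0, 0⟩
  f11 := ⟨0, 0, 0, 0⟩
  l000 := ⟨0, 0, 0, 0⟩
  l001 := ⟨0, 0, 0, 0⟩
  l002 := ⟨0, 0, 0, 0⟩
  l010 := ⟨0, 0, 0, 0⟩
  l011 := ⟨0, 0, 0, 0⟩
  l020 := ⟨0, 0, 0, 0⟩
  l100 := ⟨0, 0, 0, 0⟩
  l101 := ⟨0, 0, 0, 0⟩
  l102 := ⟨0, 0, 0, 0⟩
  l110 := ⟨0, 0, 0, 0⟩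
  l111 := ⟨0, 0, 0, 0⟩
  l120 := ⟨0, 0, 0, 0⟩
  l200 := ⟨0, 0, 0, 0⟩
  l201 := ⟨0, 0, 0, 0⟩
  l210 := ⟨0, 0, 0, 0⟩
  l300 := ⟨0, 0, 0, 0⟩
  l301 := ⟨0, 0, 0, 0⟩
  l310 := ⟨0, 0, 0, 0⟩
  l400 := ⟨0, 0, 0, 0⟩
  l401 := ⟨0, 0, 0, 0⟩
  l410 := ⟨0, 0, 0, 0⟩
  l500 := ⟨0, 0, 0, 0⟩
  l600 := ⟨0, 0, 0, 0⟩
  l700 := ⟨0, 0, 0, 0⟩
  q00 := ⟨0, 0, 0, 0⟩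
  q01 := ⟨0, 0, 0, 0⟩
  q02 := ⟨0, 0, 0, 0⟩
  q03 := ⟨0, 0, 0, 0⟩
  q10 := ⟨0, 0, 0, 0⟩
  q11 := ⟨0, 0, 0, 0⟩
  q12 := ⟨0, 0, 0, 0⟩
  q20 := ⟨0, 0, 0, 0⟩
  q21 := ⟨0, 0, 0, 0⟩
  q30 := ⟨0, 0, 0, 0⟩
  n000 := ⟨0, 0, 0, 0⟩
  n001 := ⟨0, 0, 0, 0⟩
  n002 := ⟨0, 0, 0, 0⟩
  n010 := ⟨0, 0, 0, 0⟩
  n011 := ⟨0, 0, 0, 0⟩
  n020 := ⟨0, 0, 0, 0⟩
  n100 := ⟨0, 0, 0, 0⟩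
  n101 := ⟨0, 0, 0, 0⟩
  n110 := ⟨0, 0, 0, 0⟩
  n200 := ⟨0, 0, 0, 0⟩
  n201 := ⟨0, 0, 0, 0⟩
  n210 := ⟨0, 0, 0, 0⟩
  n300 := ⟨0, 0, 0, 0⟩
  n400 := ⟨0, 0, 0, 0⟩
  n500 := ⟨0, 0, 0, 0⟩
  e00 := ⟨0, 0, 0, 0⟩
  e01 := ⟨0, 0, 0, 0⟩
  e02 := ⟨0, 0, 0, 0⟩
  e03 := ⟨0, 0, 0, 0⟩
  e10 := ⟨0, 0, 0, 0⟩
  e11 := ⟨0, 0, 0, 0⟩
  B1 := 0

def p3 : Pm where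
  ec := ⟨154618822656, 0, 0, 0⟩
  bc := ⟨0, 0, 0, 0⟩
  nn := ⟨4398046511104, 0, 0, 0⟩
  tj := ⟨10995116277760, 0, 0, 0⟩
  ca := ⟨494726545408, 0, 0, 0⟩
  cb := ⟨384936443904, 0, 0, 0⟩
  cc := ⟨0, 0, 0, 0⟩
  ax := ⟨0, 0, 0, 0⟩
  ay := ⟨0, 0, 0, 0⟩
  xa := ⟨0, 0, 0, 0⟩
  C2 := ⟨0, 0, 0, 0⟩
  wr := ⟨0, 0, 0, 0⟩
  wi := ⟨0, 0, 0, 0⟩
  w1 := ⟨0, 0, 0, 0⟩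
  h000 := ⟨0, 2968503040, 0, 0⟩
  h001 := ⟨82447539520, 0, 0, 0⟩
  h002 := ⟨0, 5646599424, 0, 0⟩
  h003 := ⟨0, 92369423040, 0, 0⟩
  h010 := ⟨100483616448, 0, 0, 0⟩
  h011 := ⟨935297971136, 0, 0, 0⟩
  h012 := ⟨0, 1451618247360, 0, 0⟩
  h020 := ⟨0, 780207476416, 0, 0⟩
  h021 := ⟨21566163662784, 0, 0, 0⟩
  h030 := ⟨0, 162452628683328, 0, 0⟩
  h100 := ⟨25231065216, 0, 0, 0⟩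
  h101 := ⟨0, 25745611520, 0, 0⟩
  h102 := ⟨1302757568, 0, 0, 0⟩
  h110 := ⟨81971049536, 0, 0, 0⟩
  h111 := ⟨0, 274386911168, 0, 0⟩
  h120 := ⟨264568529664, 0, 0, 0⟩
  h200 := ⟨0, 8715824640, 0, 0⟩
  h201 := ⟨2316925056, 0, 0, 0⟩
  h210 := ⟨0, 18002107392, 0, 0⟩
  h300 := ⟨1151753728, 0, 0, 0⟩
  h400 := ⟨0, 73452288, 0, 0⟩
  m000 := ⟨1093148082176, 0, 0, 0⟩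
  m001 := ⟨0, 2024407040, 0, 0⟩
  m002 := ⟨101302272000, 0, 0, 0⟩
  m010 := ⟨24012455936, 0, 0, 0⟩
  m100 := ⟨87675502592, 0, 0, 0⟩
  m101 := ⟨3670147072, 0, 0, 0⟩
  m110 := ⟨646054477824, 0, 0, 0⟩
  m200 := ⟨0, 1423114240, 0, 0⟩
  m300 := ⟨0, 267780096, 0, 0⟩
  a00 := ⟨77117784064, 0, 0, 0⟩
  a01 := ⟨14371520512, 0, 0, 0⟩
  a02 := ⟨0, 613994856448, 0, 0⟩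
  a03 := ⟨1674923212800, 0, 0, 0⟩
  a10 := ⟨143425142784, 0, 0, 0⟩
  a11 := ⟨0, 696498716672, 0, 0⟩
  b00 := ⟨67937894400, 0, 0, 0⟩
  b01 := ⟨0, 8094679040, 0, 0⟩
  b02 := ⟨0, 373012955136, 0, 0⟩
  b03 := ⟨999930003456, 0, 0, 0⟩
  b10 := ⟨230443057152, 0, 0, 0⟩
  b11 := ⟨0, 725387640832, 0, 0⟩
  t00 := ⟨833530363904, 0, 0, 0⟩
  t01 := ⟨877215154176, 0, 0, 0⟩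
  t02 := ⟨0, 911011217408, 0, 0⟩
  t03 := ⟨3858401263616, 0, 0, 0⟩
  t10 := ⟨661646540800, 0, 0, 0⟩
  t11 := ⟨11245648740352, 0, 0, 0⟩
  s00 := ⟨4562976899072, 0, 0, 0⟩
  s01 := ⟨4316922576896, 0, 0, 0⟩
  s02 := ⟨0, 9386470670336, 0, 0⟩
  s03 := ⟨23122201018368, 0, 0, 0⟩
  s10 := ⟨0, 4895167348736, 0, 0⟩
  s11 := ⟨12258623684608, 0, 0, 0⟩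
  g00 := ⟨0, 0, 0, 0⟩
  g01 := ⟨0, 0, 0, 0⟩
  g10 := ⟨0, 0, 0, 0⟩
  g11 := ⟨0, 0, 0, 0⟩
  f00 := ⟨0, 0, 0, 0⟩
  f01 := ⟨0, 0, 0, 0⟩
  f10 := ⟨0, 0, 0, 0⟩
  f11 := ⟨0, 0, 0, 0⟩
  l000 := ⟨0, 0, 0, 0⟩
  l001 := ⟨0, 0, 0, 0⟩
  l002 := ⟨0, 0, 0, 0⟩
  l010 := ⟨0, 0, 0, 0⟩
  l011 := ⟨0, 0, 0, 0⟩
  l020 := ⟨0, 0, 0, 0⟩
  l100 := ⟨0, 0, 0, 0⟩
  l101 := ⟨0, 0, 0, 0⟩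
  l102 := ⟨0, 0, 0, 0⟩
  l110 := ⟨0, 0, 0, 0⟩
  l111 := ⟨0, 0, 0, 0⟩
  l120 := ⟨0, 0, 0, 0⟩
  l200 := ⟨0, 0, 0, 0⟩
  l201 := ⟨0, 0, 0, 0⟩
  l210 := ⟨0, 0, 0, 0⟩
  l300 := ⟨0, 0, 0, 0⟩
  l301 := ⟨0, 0, 0, 0⟩
  l310 := ⟨0, 0, 0, 0⟩
  l400 := ⟨0, 0, 0, 0⟩
  l401 := ⟨0, 0, 0, 0⟩
  l410 := ⟨0, 0, 0, 0⟩
  l500 := ⟨0, 0, 0, 0⟩
  l600 := ⟨0, 0, 0, 0⟩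
  l700 := ⟨0, 0, 0, 0⟩
  q00 := ⟨0, 0, 0, 0⟩
  q01 := ⟨0, 0, 0, 0⟩
  q02 := ⟨0, 0, 0, 0⟩
  q03 := ⟨0, 0, 0, 0⟩
  q10 := ⟨0, 0, 0, 0⟩
  q11 := ⟨0, 0, 0, 0⟩
  q12 := ⟨0, 0, 0, 0⟩
  q20 := ⟨0, 0, 0, 0⟩
  q21 := ⟨0, 0, 0, 0⟩
  q30 := ⟨0, 0, 0, 0⟩
  n000 := ⟨0, 0, 0, 0⟩
  n001 := ⟨0, 0, 0, 0⟩
  n002 := ⟨0, 0, 0, 0⟩
  n010 := ⟨0, 0, 0, 0⟩
  n011 := ⟨0, 0, 0, 0⟩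
  n020 := ⟨0, 0, 0, 0⟩
  n100 := ⟨0, 0, 0, 0⟩
  n101 := ⟨0, 0, 0, 0⟩
  n110 := ⟨0, 0, 0, 0⟩
  n200 := ⟨0, 0, 0, 0⟩
  n201 := ⟨0, 0, 0, 0⟩
  n210 := ⟨0, 0, 0, 0⟩
  n300 := ⟨0, 0, 0, 0⟩
  n400 := ⟨0, 0, 0, 0⟩
  n500 := ⟨0, 0, 0, 0⟩
  e00 := ⟨0, 0, 0, 0⟩
  e01 := ⟨0, 0, 0, 0⟩
  e02 := ⟨0, 0, 0, 0⟩
  e03 := ⟨0, 0, 0, 0⟩
  e10 := ⟨0, 0, 0, 0⟩
  e11 := ⟨0, 0, 0, 0⟩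
  B1 := 0

def p4 : Pm where
  ec := ⟨154618822656, 0, 0, 0⟩
  bc := ⟨0, 0, 0, 0⟩
  nn := ⟨5497558138880, 0, 0, 0⟩
  tj := ⟨13194139533312, 0, 0, 0⟩
  ca := ⟨384936443904, 0, 0, 0⟩
  cb := ⟨329907175424, 0, 0, 0⟩
  cc := ⟨0, 0, 0, 0⟩
  ax := ⟨0, 0, 0, 0⟩
  ay := ⟨0, 0, 0, 0⟩
  xa := ⟨0, 0, 0, 0⟩
  C2 := ⟨0, 0, 0, 0⟩
  wr := ⟨0, 0, 0, 0⟩
  wi := ⟨0, 0, 0, 0⟩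
  w1 := ⟨0, 0, 0, 0⟩
  h000 := ⟨0, 2968503040, 0, 0⟩
  h001 := ⟨82447539520, 0, 0, 0⟩
  h002 := ⟨0, 5646599424, 0, 0⟩
  h003 := ⟨0, 92369423040, 0, 0⟩
  h010 := ⟨100483616448, 0, 0, 0⟩
  h011 := ⟨935297971136, 0, 0, 0⟩
  h012 := ⟨0, 1451618247360, 0, 0⟩
  h020 := ⟨0, 780207476416, 0, 0⟩
  h021 := ⟨21566163662784, 0, 0, 0⟩
  h030 := ⟨0, 162452628683328, 0, 0⟩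
  h100 := ⟨25231065216, 0, 0, 0⟩
  h101 := ⟨0, 25745611520, 0, 0⟩
  h102 := ⟨1302757568, 0, 0, 0⟩
  h110 := ⟨81971049536, 0, 0, 0⟩
  h111 := ⟨0, 274386911168, 0, 0⟩
  h120 := ⟨264568529664, 0, 0, 0⟩
  h200 := ⟨0, 8715824640, 0, 0⟩
  h201 := ⟨2316925056, 0, 0, 0⟩
  h210 := ⟨0, 18002107392, 0, 0⟩
  h300 := ⟨1151753728, 0, 0, 0⟩
  h400 := ⟨0, 73452288, 0, 0⟩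
  m000 := ⟨1095143784448, 0, 0, 0⟩
  m001 := ⟨0, 1813446656, 0, 0⟩
  m002 := ⟨95898173440, 0, 0, 0⟩
  m010 := ⟨6959464448, 0, 0, 0⟩
  m100 := ⟨84825800704, 0, 0, 0⟩
  m101 := ⟨3923836928, 0, 0, 0⟩
  m110 := ⟨647324565504, 0, 0, 0⟩
  m200 := ⟨0, 8978432, 0, 0⟩
  m300 := ⟨0, 494862336, 0, 0⟩
  a00 := ⟨67937894400, 0, 0, 0⟩
  a01 := ⟨0, 8094679040, 0, 0⟩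
  a02 := ⟨0, 373012955136, 0, 0⟩
  a03 := ⟨999930003456, 0, 0, 0⟩
  a10 := ⟨230443057152, 0, 0, 0⟩
  a11 := ⟨0, 725387640832, 0, 0⟩
  b00 := ⟨60124626944, 0, 0, 0⟩
  b01 := ⟨0, 48322183168, 0, 0⟩
  b02 := ⟨51781632000, 0, 0, 0⟩
  b03 := ⟨0, 40559247360, 0, 0⟩
  b10 := ⟨270050263040, 0, 0, 0⟩
  b11 := ⟨0, 575793659904, 0, 0⟩
  t00 := ⟨737930903552, 0, 0, 0⟩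
  t01 := ⟨652464291840, 0, 0, 0⟩
  t02 := ⟨3307580686336, 0, 0, 0⟩
  t03 := ⟨0, 4995109355520, 0, 0⟩
  t10 := ⟨1530982498304, 0, 0, 0⟩
  t11 := ⟨16034811805696, 0, 0, 0⟩
  s00 := ⟨5396507262976, 0, 0, 0⟩
  s01 := ⟨5194137731072, 0, 0, 0⟩
  s02 := ⟨0, 10297481887744, 0, 0⟩
  s03 := ⟨26980602281984, 0, 0, 0⟩
  s10 := ⟨0, 4233520807936, 0, 0⟩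
  s11 := ⟨23504272424960, 0, 0, 0⟩
  g00 := ⟨0, 0, 0, 0⟩
  g01 := ⟨0, 0, 0, 0⟩
  g10 := ⟨0, 0, 0, 0⟩
  g11 := ⟨0, 0, 0, 0⟩
  f00 := ⟨0, 0, 0, 0⟩
  f01 := ⟨0, 0, 0, 0⟩
  f10 := ⟨0, 0, 0, 0⟩
  f11 := ⟨0, 0, 0, 0⟩
  l000 := ⟨0, 0, 0, 0⟩
  l001 := ⟨0, 0, 0, 0⟩
  l002 := ⟨0, 0, 0, 0⟩
  l010 := ⟨0, 0, 0, 0⟩
  l011 := ⟨0, 0, 0, 0⟩
  l020 := ⟨0, 0, 0, 0⟩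
  l100 := ⟨0, 0, 0, 0⟩
  l101 := ⟨0, 0, 0, 0⟩
  l102 := ⟨0, 0, 0, 0⟩
  l110 := ⟨0, 0, 0, 0⟩
  l111 := ⟨0, 0, 0, 0⟩
  l120 := ⟨0, 0, 0, 0⟩
  l200 := ⟨0, 0, 0, 0⟩
  l201 := ⟨0, 0, 0, 0⟩
  l210 := ⟨0, 0, 0, 0⟩
  l300 := ⟨0, 0, 0, 0⟩
  l301 := ⟨0, 0, 0, 0⟩
  l310 := ⟨0, 0, 0, 0⟩
  l400 := ⟨0, 0, 0, 0⟩
  l401 := ⟨0, 0, 0, 0⟩
  l410 := ⟨0, 0, 0, 0⟩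
  l500 := ⟨0, 0, 0, 0⟩
  l600 := ⟨0, 0, 0, 0⟩
  l700 := ⟨0, 0, 0, 0⟩
  q00 := ⟨0, 0, 0, 0⟩
  q01 := ⟨0, 0, 0, 0⟩
  q02 := ⟨0, 0, 0, 0⟩
  q03 := ⟨0, 0, 0, 0⟩
  q10 := ⟨0, 0, 0, 0⟩
  q11 := ⟨0, 0, 0, 0⟩
  q12 := ⟨0, 0, 0, 0⟩
  q20 := ⟨0, 0, 0, 0⟩
  q21 := ⟨0, 0, 0, 0⟩
  q30 := ⟨0, 0, 0, 0⟩
  n000 := ⟨0, 0, 0, 0⟩
  n001 := ⟨0, 0, 0, 0⟩
  n002 := ⟨0, 0, 0, 0⟩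
  n010 := ⟨0, 0, 0, 0⟩
  n011 := ⟨0, 0, 0, 0⟩
  n020 := ⟨0, 0, 0, 0⟩
  n100 := ⟨0, 0, 0, 0⟩
  n101 := ⟨0, 0, 0, 0⟩
  n110 := ⟨0, 0, 0, 0⟩
  n200 := ⟨0, 0, 0, 0⟩
  n201 := ⟨0, 0, 0, 0⟩
  n210 := ⟨0, 0, 0, 0⟩
  n300 := ⟨0, 0, 0, 0⟩
  n400 := ⟨0, 0, 0, 0⟩
  n500 := ⟨0, 0, 0, 0⟩
  e00 := ⟨0, 0, 0, 0⟩
  e01 := ⟨0, 0, 0, 0⟩
  e02 := ⟨0, 0, 0, 0⟩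
  e03 := ⟨0, 0, 0, 0⟩
  e10 := ⟨0, 0, 0, 0⟩
  e11 := ⟨0, 0, 0, 0⟩
  B1 := 0

def p5 : Pm where
  ec := ⟨154618822656, 0, 0, 0⟩
  bc := ⟨0, 0, 0, 0⟩
  nn := ⟨6597069766656, 0, 0, 0⟩
  tj := ⟨15393162788864, 0, 0, 0⟩
  ca := ⟨329907175424, 0, 0, 0⟩
  cb := ⟨0, 0, 0, 0⟩
  cc := ⟨0, 0, 0, 0⟩
  ax := ⟨2308974418944, 0, 0, 0⟩
  ay := ⟨91625969664, 0, 0, 0⟩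
  xa := ⟨4288095348224, 0, 0, 0⟩
  C2 := ⟨1327712154624, 0, 0, 0⟩
  wr := ⟨0, 0, 0, 0⟩
  wi := ⟨0, 0, 0, 0⟩
  w1 := ⟨0, 0, 0, 0⟩
  h000 := ⟨0, 2968503040, 0, 0⟩
  h001 := ⟨82447539520, 0, 0, 0⟩
  h002 := ⟨0, 5646599424, 0, 0⟩
  h003 := ⟨0, 92369423040, 0, 0⟩
  h010 := ⟨100483616448, 0, 0, 0⟩
  h011 := ⟨935297971136, 0, 0, 0⟩
  h012 := ⟨0, 1451618247360, 0, 0⟩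
  h020 := ⟨0, 780207476416, 0, 0⟩
  h021 := ⟨21566163662784, 0, 0, 0⟩
  h030 := ⟨0, 162452628683328, 0, 0⟩
  h100 := ⟨25231065216, 0, 0, 0⟩
  h101 := ⟨0, 25745611520, 0, 0⟩
  h102 := ⟨1302757568, 0, 0, 0⟩
  h110 := ⟨81971049536, 0, 0, 0⟩
  h111 := ⟨0, 274386911168, 0, 0⟩
  h120 := ⟨264568529664, 0, 0, 0⟩
  h200 := ⟨0, 8715824640, 0, 0⟩
  h201 := ⟨2316925056, 0, 0, 0⟩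
  h210 := ⟨0, 18002107392, 0, 0⟩
  h300 := ⟨1151753728, 0, 0, 0⟩
  h400 := ⟨0, 73452288, 0, 0⟩
  m000 := ⟨1095954792448, 0, 0, 0⟩
  m001 := ⟨0, 629866496, 0, 0⟩
  m002 := ⟨69179539456, 0, 0, 0⟩
  m010 := ⟨0, 24486084608, 0, 0⟩
  m100 := ⟨81709301760, 0, 0, 0⟩
  m101 := ⟨4340711424, 0, 0, 0⟩
  m110 := ⟨659509870592, 0, 0, 0⟩
  m200 := ⟨2566717440, 0, 0, 0⟩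
  m300 := ⟨0, 1033371648, 0, 0⟩
  a00 := ⟨60124626944, 0, 0, 0⟩
  a01 := ⟨0, 48322183168, 0, 0⟩
  a02 := ⟨51781632000, 0, 0, 0⟩
  a03 := ⟨0, 40559247360, 0, 0⟩
  a10 := ⟨270050263040, 0, 0, 0⟩
  a11 := ⟨0, 575793659904, 0, 0⟩
  b00 := ⟨0, 0, 0, 0⟩
  b01 := ⟨0, 0, 0, 0⟩
  b02 := ⟨0, 0, 0, 0⟩
  b03 := ⟨0, 0, 0, 0⟩
  b10 := ⟨0, 0, 0, 0⟩
  b11 := ⟨0, 0, 0, 0⟩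
  t00 := ⟨656046030848, 0, 0, 0⟩
  t01 := ⟨89743491072, 0, 0, 0⟩
  t02 := ⟨10091438276608, 0, 0, 0⟩
  t03 := ⟨0, 19718643908608, 0, 0⟩
  t10 := ⟨1955866411008, 0, 0, 0⟩
  t11 := ⟨20756195442688, 0, 0, 0⟩
  s00 := ⟨6134438166528, 0, 0, 0⟩
  s01 := ⟨5846602022912, 0, 0, 0⟩
  s02 := ⟨0, 6989901201408, 0, 0⟩
  s03 := ⟨21985492926464, 0, 0, 0⟩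
  s10 := ⟨0, 2702538309632, 0, 0⟩
  s11 := ⟨39539084230656, 0, 0, 0⟩
  g00 := ⟨0, 0, 0, 0⟩
  g01 := ⟨0, 0, 0, 0⟩
  g10 := ⟨0, 0, 0, 0⟩
  g11 := ⟨0, 0, 0, 0⟩
  f00 := ⟨0, 0, 0, 0⟩
  f01 := ⟨0, 0, 0, 0⟩
  f10 := ⟨0, 0, 0, 0⟩
  f11 := ⟨0, 0, 0, 0⟩
  l000 := ⟨0, 0, 0, 0⟩
  l001 := ⟨0, 0, 0, 0⟩
  l002 := ⟨0, 0, 0, 0⟩
  l010 := ⟨0, 0, 0, 0⟩
  l011 := ⟨0, 0, 0, 0⟩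
  l020 := ⟨0, 0, 0, 0⟩
  l100 := ⟨0, 0, 0, 0⟩
  l101 := ⟨0, 0, 0, 0⟩
  l102 := ⟨0, 0, 0, 0⟩
  l110 := ⟨0, 0, 0, 0⟩
  l111 := ⟨0, 0, 0, 0⟩
  l120 := ⟨0, 0, 0, 0⟩
  l200 := ⟨0, 0, 0, 0⟩
  l201 := ⟨0, 0, 0, 0⟩
  l210 := ⟨0, 0, 0, 0⟩
  l300 := ⟨0, 0, 0, 0⟩
  l301 := ⟨0, 0, 0, 0⟩
  l310 := ⟨0, 0, 0, 0⟩
  l400 := ⟨0, 0, 0, 0⟩
  l401 := ⟨0, 0, 0, 0⟩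
  l410 := ⟨0, 0, 0, 0⟩
  l500 := ⟨0, 0, 0, 0⟩
  l600 := ⟨0, 0, 0, 0⟩
  l700 := ⟨0, 0, 0, 0⟩
  q00 := ⟨0, 0, 0, 0⟩
  q01 := ⟨0, 0, 0, 0⟩
  q02 := ⟨0, 0, 0, 0⟩
  q03 := ⟨0, 0, 0, 0⟩
  q10 := ⟨0, 0, 0, 0⟩
  q11 := ⟨0, 0, 0, 0⟩
  q12 := ⟨0, 0, 0, 0⟩
  q20 := ⟨0, 0, 0, 0⟩
  q21 := ⟨0, 0, 0, 0⟩
  q30 := ⟨0, 0, 0, 0⟩
  n000 := ⟨0, 0, 0, 0⟩
  n001 := ⟨0, 0, 0, 0⟩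
  n002 := ⟨0, 0, 0, 0⟩
  n010 := ⟨0, 0, 0, 0⟩
  n011 := ⟨0, 0, 0, 0⟩
  n020 := ⟨0, 0, 0, 0⟩
  n100 := ⟨0, 0, 0, 0⟩
  n101 := ⟨0, 0, 0, 0⟩
  n110 := ⟨0, 0, 0, 0⟩
  n200 := ⟨0, 0, 0, 0⟩
  n201 := ⟨0, 0, 0, 0⟩
  n210 := ⟨0, 0, 0, 0⟩
  n300 := ⟨0, 0, 0, 0⟩
  n400 := ⟨0, 0, 0, 0⟩
  n500 := ⟨0, 0, 0, 0⟩
  e00 := ⟨0, 0, 0, 0⟩
  e01 := ⟨0, 0, 0, 0⟩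
  e02 := ⟨0, 0, 0, 0⟩
  e03 := ⟨0, 0, 0, 0⟩
  e10 := ⟨0, 0, 0, 0⟩
  e11 := ⟨0, 0, 0, 0⟩
  B1 := 659706347520

def pF : Pm where
  ec := ⟨154618822656, 0, 0, 0⟩
  bc := ⟨0, 0, 0, 0⟩
  nn := ⟨0, 0, 0, 0⟩
  tj := ⟨2199023255552, 0, 0, 0⟩
  ca := ⟨1099511627776, 0, 0, 0⟩
  cb := ⟨0, 0, 0, 0⟩
  cc := ⟨879662989312, 0, 0, 0⟩
  ax := ⟨0, 0, 0, 0⟩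
  ay := ⟨0, 0, 0, 0⟩
  xa := ⟨0, 0, 0, 0⟩
  C2 := ⟨0, 0, 0, 0⟩
  wr := ⟨0, 0, 0, 0⟩
  wi := ⟨0, 0, 0, 0⟩
  w1 := ⟨0, 0, 0, 0⟩
  h000 := ⟨0, 2968503040, 0, 0⟩
  h001 := ⟨82447539520, 0, 0, 0⟩
  h002 := ⟨0, 5646599424, 0, 0⟩
  h003 := ⟨0, 92369423040, 0, 0⟩
  h010 := ⟨100483616448, 0, 0, 0⟩
  h011 := ⟨935297971136, 0, 0, 0⟩
  h012 := ⟨0, 1451618247360, 0, 0⟩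
  h020 := ⟨0, 780207476416, 0, 0⟩
  h021 := ⟨21566163662784, 0, 0, 0⟩
  h030 := ⟨0, 162452628683328, 0, 0⟩
  h100 := ⟨25231065216, 0, 0, 0⟩
  h101 := ⟨0, 25745611520, 0, 0⟩
  h102 := ⟨1302757568, 0, 0, 0⟩
  h110 := ⟨81971049536, 0, 0, 0⟩
  h111 := ⟨0, 274386911168, 0, 0⟩
  h120 := ⟨264568529664, 0, 0, 0⟩
  h200 := ⟨0, 8715824640, 0, 0⟩
  h201 := ⟨2316925056, 0, 0, 0⟩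
  h210 := ⟨0, 18002107392, 0, 0⟩
  h300 := ⟨1151753728, 0, 0, 0⟩
  h400 := ⟨0, 73452288, 0, 0⟩
  m000 := ⟨0, 0, 0, 0⟩
  m001 := ⟨0, 0, 0, 0⟩
  m002 := ⟨0, 0, 0, 0⟩
  m010 := ⟨0, 0, 0, 0⟩
  m100 := ⟨0, 0, 0, 0⟩
  m101 := ⟨0, 0, 0, 0⟩
  m110 := ⟨0, 0, 0, 0⟩
  m200 := ⟨0, 0, 0, 0⟩
  m300 := ⟨0, 0, 0, 0⟩
  a00 := ⟨108696043520, 0, 0, 0⟩
  a01 := ⟨175417131008, 0, 0, 0⟩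
  a02 := ⟨0, 1786151895040, 0, 0⟩
  a03 := ⟨5107476463616, 0, 0, 0⟩
  a10 := ⟨0, 104393342976, 0, 0⟩
  a11 := ⟨0, 1211855601664, 0, 0⟩
  b00 := ⟨0, 0, 0, 0⟩
  b01 := ⟨0, 0, 0, 0⟩
  b02 := ⟨0, 0, 0, 0⟩
  b03 := ⟨0, 0, 0, 0⟩
  b10 := ⟨0, 0, 0, 0⟩
  b11 := ⟨0, 0, 0, 0⟩
  t00 := ⟨1395493830656, 0, 0, 0⟩
  t01 := ⟨2310957563904, 0, 0, 0⟩
  t02 := ⟨3309934411776, 0, 0, 0⟩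
  t03 := ⟨0, 16700142649344, 0, 0⟩
  t10 := ⟨0, 1086992220160, 0, 0⟩
  t11 := ⟨0, 2425737773056, 0, 0⟩
  s00 := ⟨0, 0, 0, 0⟩
  s01 := ⟨0, 0, 0, 0⟩
  s02 := ⟨0, 0, 0, 0⟩
  s03 := ⟨0, 0, 0, 0⟩
  s10 := ⟨0, 0, 0, 0⟩
  s11 := ⟨0, 0, 0, 0⟩
  g00 := ⟨0, 0, 0, 0⟩
  g01 := ⟨0, 0, 0, 0⟩
  g10 := ⟨0, 0, 0, 0⟩
  g11 := ⟨0, 0, 0, 0⟩
  f00 := ⟨0, 0, 0, 0⟩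
  f01 := ⟨0, 0, 0, 0⟩
  f10 := ⟨0, 0, 0, 0⟩
  f11 := ⟨0, 0, 0, 0⟩
  l000 := ⟨3664266178880, 0, 0, 0⟩
  l001 := ⟨78197858880, 0, 0, 0⟩
  l002 := ⟨0, 122721566272, 0, 0⟩
  l010 := ⟨4303395909888, 0, 0, 0⟩
  l011 := ⟨0, 249073284352, 0, 0⟩
  l020 := ⟨0, 2020709783488, 0, 0⟩
  l100 := ⟨273471431296, 0, 0, 0⟩
  l101 := ⟨0, 189924361920, 0, 0⟩
  l102 := ⟨0, 179213306304, 0, 0⟩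
  l110 := ⟨0, 19612067131776, 0, 0⟩
  l111 := ⟨0, 1079846553536, 0, 0⟩
  l120 := ⟨0, 27429523768576, 0, 0⟩
  l200 := ⟨0, 1566279095232, 0, 0⟩
  l201 := ⟨321165000896, 0, 0, 0⟩
  l210 := ⟨5920169324480, 0, 0, 0⟩
  l300 := ⟨1730229688256, 0, 0, 0⟩
  l301 := ⟨0, 283321186432, 0, 0⟩
  l310 := ⟨0, 11919466169280, 0, 0⟩
  l400 := ⟨0, 1419546657216, 0, 0⟩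
  l401 := ⟨97111519040, 0, 0, 0⟩
  l410 := ⟨5596688120640, 0, 0, 0⟩
  l500 := ⟨41079547520, 0, 0, 0⟩
  l600 := ⟨596008248064, 0, 0, 0⟩
  l700 := ⟨0, 499894887104, 0, 0⟩
  q00 := ⟨0, 8989283776, 0, 0⟩
  q01 := ⟨453146153408, 0, 0, 0⟩
  q02 := ⟨1593579082624, 0, 0, 0⟩
  q03 := ⟨0, 3258669190912, 0, 0⟩
  q10 := ⟨0, 1133466064064, 0, 0⟩
  q11 := ⟨13670122905152, 0, 0, 0⟩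
  q12 := ⟨0, 22967036003008, 0, 0⟩
  q20 := ⟨37649480542656, 0, 0, 0⟩
  q21 := ⟨0, 202555641363968, 0, 0⟩
  q30 := ⟨0, 696713692632960, 0, 0⟩
  n000 := ⟨1099822727168, 0, 0, 0⟩
  n001 := ⟨0, 22550282240, 0, 0⟩
  n002 := ⟨195662970880, 0, 0, 0⟩
  n010 := ⟨0, 484924588032, 0, 0⟩
  n011 := ⟨932336828416, 0, 0, 0⟩
  n020 := ⟨2842695434240, 0, 0, 0⟩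
  n100 := ⟨222455398400, 0, 0, 0⟩
  n101 := ⟨20455292928, 0, 0, 0⟩
  n110 := ⟨5575036829696, 0, 0, 0⟩
  n200 := ⟨815158329344, 0, 0, 0⟩
  n201 := ⟨0, 34673262592, 0, 0⟩
  n210 := ⟨0, 4159910903808, 0, 0⟩
  n300 := ⟨0, 1195084939264, 0, 0⟩
  n400 := ⟨773341577216, 0, 0, 0⟩
  n500 := ⟨0, 285943332864, 0, 0⟩
  e00 := ⟨131360555008, 0, 0, 0⟩
  e01 := ⟨596230733824, 0, 0, 0⟩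
  e02 := ⟨0, 2877959176192, 0, 0⟩
  e03 := ⟨10430416158720, 0, 0, 0⟩
  e10 := ⟨0, 166961938432, 0, 0⟩
  e11 := ⟨0, 3822257569792, 0, 0⟩
  B1 := 0

end Pool.Agent.helper12.KC
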