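import Pool.Agent.helper12.GP.MAP
import Pool.Agent.helper12.GP.MBP
import Pool.Agent.helper12.KC.P

/-!
Generated certificates.
-/

namespace Pool.Agent.helper12.KC

open Pool.Agent.helper31.IX (Cov cov_split)
open Pool.Agent.helper12.GP
open Pool.Agent.helper14.QF (cov_E)

mutual
theorem N2B1 : Cov 1 (MB.prog0 p2) [(154618822656, 17179869184), (142936637440, 32986103808), (386547056640, 386547056640)] :=
  cov_E (MB.chkB0_eq p2) (.n 0 (.n 1 (.n 2 (.n 2 .l .l) (.n 0 (.n 2 .l .l) (.n 2 .l .l))) (.n 2 (.n 2 .l .l) (.n 0 (.n 2 .l .l) (.n 2 .l .l)))) (.n 1 (.n 2 (.n 2 .l .l) (.n 0 (.n 2 .l .l) (.n 2 .l .l))) (.n 2 (.n 2 .l .l) (.n 0 (.n 2 .l .l) (.n 2 .l .l)))))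
    [(154618822656, 17179869184), (142936637440, 32986103808), (386547056640, 386547056640)] rfl (by decide +kernel)
theorem N2B2 : Cov 1 (MB.prog0 p2) [(154618822656, 17179869184), (225399799808, 49478107136), (241591910400, 241591910400)] :=
  cov_E (MB.chkB0_eq p2) (.n 0 (.n 1 (.n 2 (.n 1 .l .l) (.n 2 .l .l)) (.n 1 (.n 2 .l .l) (.n 2 .l .l))) (.n 1 (.n 2 (.n 1 .l .l) (.n 2 .l .l)) (.n 1 (.n 2 .l .l) (.n 2 .l .l))))
    [(154618822656, 17179869184), (225399799808, 49478107136), (241591910400, 241591910400)] rfl (by decide +kernel)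
end

mutual
theorem N3A_t3 : Cov 1 (MA.prog0 p3) [(146028888064, 8589934592), (38654705664, 38654705664), (549755813888, 549755813888)] :=
  cov_E (MA.chkB0_eq p3) (.n 1 (.n 2 (.n 2 (.n 2 .l .l) (.n 1 .l .l)) (.n 0 (.n 2 .l .l) (.n 2 .l .l))) (.n 2 (.n 2 (.n 2 .l .l) (.n 1 .l .l)) (.n 0 (.n 2 .l .l) (.n 2 .l .l))))
    [(146028888064, 8589934592), (38654705664, 38654705664), (549755813888, 549755813888)] rfl (by decide +kernel)
theorem N3A_t4 : Cov 1 (MA.prog0 p3) [(146028888064, 8589934592), (115964116992, 38654705664), (549755813888, 549755813888)] :=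
  cov_E (MA.chkB0_eq p3) (.n 1 (.n 2 (.n 2 (.n 2 .l .l) (.n 2 .l .l)) (.n 0 (.n 2 .l .l) (.n 2 .l .l))) (.n 2 (.n 2 (.n 2 .l .l) (.n 2 .l .l)) (.n 0 (.n 2 .l .l) (.n 2 .l .l))))
    [(146028888064, 8589934592), (115964116992, 38654705664), (549755813888, 549755813888)] rfl (by decide +kernel)
end

mutual
theorem N3A_t5 : Cov 1 (MA.prog0 p3) [(163208757248, 8589934592), (38654705664, 38654705664), (549755813888, 549755813888)] :=
  cov_E (MA.chkB0_eq p3) (.n 1 (.n 2 (.n 2 (.n 2 .l .l) (.n 2 .l .l)) (.n 2 (.n 0 .l .l) .l)) (.n 2 (.n 2 (.n 2 .l .l) (.n 2 .l .l)) (.n 0 (.n 2 .l .l) (.n 2 .l .l))))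
    [(163208757248, 8589934592), (38654705664, 38654705664), (549755813888, 549755813888)] rfl (by decide +kernel)
theorem N3A_t6 : Cov 1 (MA.prog0 p3) [(163208757248, 8589934592), (115964116992, 38654705664), (549755813888, 549755813888)] :=
  cov_E (MA.chkB0_eq p3) (.n 1 (.n 2 (.n 2 (.n 2 .l .l) (.n 2 .l .l)) (.n 0 (.n 2 .l .l) (.n 2 .l .l))) (.n 2 (.n 2 (.n 2 .l .l) (.n 2 .l .l)) (.n 0 (.n 2 .l .l) (.n 2 .l .l))))
    [(163208757248, 8589934592), (115964116992, 38654705664), (549755813888, 549755813888)] rfl (by decide +kernel)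
end

mutual
theorem N3B0_t3 : Cov 1 (MB.prog0 p3) [(146028888064, 8589934592), (27487895552, 27487895552), (549755813888, 549755813888)] :=
  cov_E (MB.chkB0_eq p3) (.n 2 (.n 2 (.n 2 .l (.n 0 .l .l)) (.n 1 (.n 0 .l .l) (.n 2 .l .l))) (.n 1 (.n 1 (.n 2 .l .l) (.n 2 .l .l)) (.n 2 (.n 2 .l .l) (.n 1 .l (.n 0 .l .l)))))
    [(146028888064, 8589934592), (27487895552, 27487895552), (549755813888, 549755813888)] rfl (by decide +kernel)
theorem N3B0_t4 : Cov 1 (MB.prog0 p3) [(146028888064, 8589934592), (82463686656, 27487895552), (549755813888, 549755813888)] :=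
  cov_E (MB.chkB0_eq p3) (.n 2 (.n 2 (.n 2 .l (.n 0 .l .l)) (.n 1 (.n 2 .l .l) (.n 2 .l .l))) (.n 1 (.n 2 (.n 2 .l .l) (.n 0 (.n 1 .l .l) (.n 1 .l .l))) (.n 2 (.n 2 .l .l) (.n 0 (.n 1 .l .l) (.n 1 .l .l)))))
    [(146028888064, 8589934592), (82463686656, 27487895552), (549755813888, 549755813888)] rfl (by decide +kernel)
end

mutual
theorem N3B0_t5 : Cov 1 (MB.prog0 p3) [(163208757248, 8589934592), (27487895552, 27487895552), (549755813888, 549755813888)] :=
  cov_E (MB.chkB0_eq p3) (.n 2 (.n 2 (.n 2 .l (.n 0 .l .l)) (.n 1 (.n 0 .l .l) (.n 1 .l .l))) (.n 1 (.n 1 (.n 2 .l .l) (.n 2 .l .l)) (.n 2 (.n 2 .l .l) (.n 1 .l (.n 0 .l .l)))))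
    [(163208757248, 8589934592), (27487895552, 27487895552), (549755813888, 549755813888)] rfl (by decide +kernel)
theorem N3B0_t6 : Cov 1 (MB.prog0 p3) [(163208757248, 8589934592), (82463686656, 27487895552), (549755813888, 549755813888)] :=
  cov_E (MB.chkB0_eq p3) (.n 2 (.n 2 (.n 2 .l (.n 0 .l .l)) (.n 1 (.n 2 .l .l) (.n 2 .l .l))) (.n 1 (.n 2 (.n 2 .l .l) (.n 0 (.n 1 .l .l) (.n 1 .l .l))) (.n 2 (.n 2 .l .l) (.n 0 (.n 1 .l .l) (.n 1 .l .l)))))
    [(163208757248, 8589934592), (82463686656, 27487895552), (549755813888, 549755813888)] rfl (by decide +kernel)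
end

mutual
theorem N3B1_t1 : Cov 1 (MB.prog0 p3) [(146028888064, 8589934592), (142936637440, 32986103808), (386547056640, 386547056640)] :=
  cov_E (MB.chkB0_eq p3) (.n 1 (.n 2 (.n 2 .l (.n 0 .l .l)) (.n 0 (.n 2 .l .l) (.n 2 .l .l))) (.n 2 (.n 2 .l (.n 0 .l .l)) (.n 0 (.n 2 .l .l) (.n 2 .l .l))))
    [(146028888064, 8589934592), (142936637440, 32986103808), (386547056640, 386547056640)] rfl (by decide +kernel)
theorem N3B1_t2 : Cov 1 (MB.prog0 p3) [(163208757248, 8589934592), (142936637440, 32986103808), (386547056640, 386547056640)] :=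
  cov_E (MB.chkB0_eq p3) (.n 1 (.n 2 (.n 2 .l (.n 0 .l .l)) (.n 1 (.n 2 .l .l) (.n 2 .l .l))) (.n 2 (.n 2 .l (.n 0 .l .l)) (.n 0 (.n 2 .l .l) (.n 2 .l .l))))
    [(163208757248, 8589934592), (142936637440, 32986103808), (386547056640, 386547056640)] rfl (by decide +kernel)
end

mutual
theorem N3B2 : Cov 1 (MB.prog0 p3) [(154618822656, 17179869184), (225399799808, 49478107136), (241591910400, 241591910400)] :=
  cov_E (MB.chkB0_eq p3) (.n 0 (.n 1 (.n 2 (.n 2 .l .l) (.n 2 .l (.n 0 .l .l))) (.n 2 (.n 1 .l .l) (.n 2 .l .l))) (.n 1 (.n 2 (.n 2 .l .l) (.n 2 .l (.n 0 .l .l))) (.n 2 (.n 1 .l .l) (.n 2 .l .l))))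
    [(154618822656, 17179869184), (225399799808, 49478107136), (241591910400, 241591910400)] rfl (by decide +kernel)
theorem N4A_t5 : Cov 1 (MA.prog0 p4) [(141733920768, 4294967296), (38654705664, 38654705664), (549755813888, 549755813888)] :=
  cov_E (MA.chkB0_eq p4) (.n 1 (.n 2 (.n 2 (.n 2 .l .l) (.n 1 .l .l)) (.n 2 (.n 0 .l .l) .l)) (.n 2 (.n 2 (.n 2 .l .l) (.n 1 .l .l)) (.n 2 (.n 0 .l .l) .l)))
    [(141733920768, 4294967296), (38654705664, 38654705664), (549755813888, 549755813888)] rfl (by decide +kernel)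
end

mutual
theorem N4A_t6 : Cov 1 (MA.prog0 p4) [(150323855360, 4294967296), (38654705664, 38654705664), (549755813888, 549755813888)] :=
  cov_E (MA.chkB0_eq p4) (.n 1 (.n 2 (.n 2 (.n 2 .l .l) (.n 1 .l .l)) (.n 2 (.n 0 .l .l) .l)) (.n 2 (.n 2 (.n 2 .l .l) (.n 1 .l .l)) (.n 2 (.n 0 .l .l) .l)))
    [(150323855360, 4294967296), (38654705664, 38654705664), (549755813888, 549755813888)] rfl (by decide +kernel)
theorem N4A_t7 : Cov 1 (MA.prog0 p4) [(146028888064, 8589934592), (96636764160, 19327352832), (549755813888, 549755813888)] :=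
  cov_E (MA.chkB0_eq p4) (.n 2 (.n 0 (.n 2 (.n 2 .l .l) (.n 1 .l .l)) (.n 2 (.n 2 .l .l) (.n 1 .l .l))) (.n 2 (.n 2 (.n 0 .l .l) .l) (.n 0 .l .l)))
    [(146028888064, 8589934592), (96636764160, 19327352832), (549755813888, 549755813888)] rfl (by decide +kernel)
end

mutual
theorem N4A_t8 : Cov 1 (MA.prog0 p4) [(146028888064, 8589934592), (135291469824, 19327352832), (549755813888, 549755813888)] :=
  cov_E (MA.chkB0_eq p4) (.n 2 (.n 0 (.n 2 (.n 2 .l .l) (.n 1 .l .l)) (.n 2 (.n 2 .l .l) (.n 2 .l .l))) (.n 2 (.n 2 .l .l) (.n 0 .l .l)))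
    [(146028888064, 8589934592), (135291469824, 19327352832), (549755813888, 549755813888)] rfl (by decide +kernel)
theorem N4A_t9 : Cov 1 (MA.prog0 p4) [(163208757248, 8589934592), (38654705664, 38654705664), (549755813888, 549755813888)] :=
  cov_E (MA.chkB0_eq p4) (.n 1 (.n 2 (.n 2 (.n 2 .l .l) (.n 2 .l .l)) (.n 0 (.n 2 .l .l) (.n 2 .l .l))) (.n 2 (.n 2 (.n 2 .l .l) (.n 2 .l .l)) (.n 0 (.n 2 .l .l) (.n 2 .l .l))))
    [(163208757248, 8589934592), (38654705664, 38654705664), (549755813888, 549755813888)] rfl (by decide +kernel)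
end

mutual
theorem N4A_t10 : Cov 1 (MA.prog0 p4) [(163208757248, 8589934592), (115964116992, 38654705664), (549755813888, 549755813888)] :=
  cov_E (MA.chkB0_eq p4) (.n 1 (.n 2 (.n 2 (.n 2 .l .l) (.n 2 .l .l)) (.n 0 (.n 2 .l .l) (.n 2 .l .l))) (.n 2 (.n 2 (.n 2 .l .l) (.n 2 .l .l)) (.n 0 (.n 2 .l .l) (.n 2 .l .l))))
    [(163208757248, 8589934592), (115964116992, 38654705664), (549755813888, 549755813888)] rfl (by decide +kernel)
theorem N4B0_t5 : Cov 1 (MB.prog0 p4) [(146028888064, 8589934592), (13743947776, 13743947776), (549755813888, 549755813888)] :=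
  cov_E (MB.chkB0_eq p4) (.n 2 (.n 2 (.n 2 .l .l) (.n 0 (.n 1 .l .l) (.n 1 .l .l))) (.n 0 (.n 1 (.n 2 .l .l) (.n 2 .l .l)) (.n 1 (.n 2 .l .l) (.n 2 .l .l))))
    [(146028888064, 8589934592), (13743947776, 13743947776), (549755813888, 549755813888)] rfl (by decide +kernel)
end

mutual
theorem N4B0_t6 : Cov 1 (MB.prog0 p4) [(146028888064, 8589934592), (41231843328, 13743947776), (549755813888, 549755813888)] :=
  cov_E (MB.chkB0_eq p4) (.n 2 (.n 2 (.n 2 .l .l) (.n 2 .l (.n 0 .l .l))) (.n 0 (.n 1 (.n 2 .l .l) (.n 2 .l .l)) (.n 1 (.n 2 .l .l) (.n 2 .l .l))))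
    [(146028888064, 8589934592), (41231843328, 13743947776), (549755813888, 549755813888)] rfl (by decide +kernel)
theorem N4B0_t4 : Cov 1 (MB.prog0 p4) [(146028888064, 8589934592), (82463686656, 27487895552), (549755813888, 549755813888)] :=
  cov_E (MB.chkB0_eq p4) (.n 1 (.n 2 (.n 2 (.n 2 .l .l) (.n 2 .l .l)) (.n 0 (.n 1 (.n 2 .l .l) (.n 2 .l .l)) (.n 1 (.n 2 .l .l) (.n 2 .l .l)))) (.n 2 (.n 2 (.n 2 .l .l) (.n 2 .l .l)) (.n 0 (.n 1 (.n 2 .l .l) (.n 2 .l .l)) (.n 1 (.n 2 .l .l) (.n 2 .l .l)))))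
    [(146028888064, 8589934592), (82463686656, 27487895552), (549755813888, 549755813888)] rfl (by decide +kernel)
end

mutual
theorem N4B0_t7 : Cov 1 (MB.prog0 p4) [(163208757248, 8589934592), (27487895552, 27487895552), (549755813888, 549755813888)] :=
  cov_E (MB.chkB0_eq p4) (.n 1 (.n 2 (.n 2 (.n 0 .l .l) (.n 2 .l .l)) (.n 2 (.n 2 .l (.n 0 .l .l)) (.n 1 .l (.n 0 .l .l)))) (.n 2 (.n 2 (.n 0 .l .l) (.n 2 .l .l)) (.n 2 (.n 2 .l (.n 0 .l .l)) (.n 0 (.n 1 .l .l) (.n 1 .l .l)))))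
    [(163208757248, 8589934592), (27487895552, 27487895552), (549755813888, 549755813888)] rfl (by decide +kernel)
theorem N4B0_t8 : Cov 1 (MB.prog0 p4) [(163208757248, 8589934592), (82463686656, 27487895552), (549755813888, 549755813888)] :=
  cov_E (MB.chkB0_eq p4) (.n 1 (.n 2 (.n 2 (.n 0 .l .l) (.n 2 .l .l)) (.n 2 (.n 2 .l (.n 0 .l .l)) (.n 0 (.n 1 .l .l) (.n 1 .l .l)))) (.n 2 (.n 2 (.n 2 .l .l) (.n 2 .l .l)) (.n 2 (.n 2 .l (.n 0 .l .l)) (.n 0 (.n 1 .l .l) (.n 1 .l .l)))))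
    [(163208757248, 8589934592), (82463686656, 27487895552), (549755813888, 549755813888)] rfl (by decide +kernel)
end

theorem N3A_t1 : Cov 1 (MA.prog0 p3) [(146028888064, 8589934592), (77309411328, 77309411328), (549755813888, 549755813888)] :=
  cov_split 1 (by decide +kernel) N3A_t3 N3A_t4

theorem N3A_t2 : Cov 1 (MA.prog0 p3) [(163208757248, 8589934592), (77309411328, 77309411328), (549755813888, 549755813888)] :=
  cov_split 1 (by decide +kernel) N3A_t5 N3A_t6

theorem N3A : Cov 1 (MA.prog0 p3) [(154618822656, 17179869184), (77309411328, 77309411328), (549755813888, 549755813888)] :=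
  cov_split 0 (by decide +kernel) N3A_t1 N3A_t2

theorem N3B0_t1 : Cov 1 (MB.prog0 p3) [(146028888064, 8589934592), (54975791104, 54975791104), (549755813888, 549755813888)] :=
  cov_split 1 (by decide +kernel) N3B0_t3 N3B0_t4

theorem N3B0_t2 : Cov 1 (MB.prog0 p3) [(163208757248, 8589934592), (54975791104, 54975791104), (549755813888, 549755813888)] :=
  cov_split 1 (by decide +kernel) N3B0_t5 N3B0_t6

theorem N3B0 : Cov 1 (MB.prog0 p3) [(154618822656, 17179869184), (54975791104, 54975791104), (549755813888, 549755813888)] :=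
  cov_split 0 (by decide +kernel) N3B0_t1 N3B0_t2

theorem N3B1 : Cov 1 (MB.prog0 p3) [(154618822656, 17179869184), (142936637440, 32986103808), (386547056640, 386547056640)] :=
  cov_split 0 (by decide +kernel) N3B1_t1 N3B1_t2

theorem N4A_t3 : Cov 1 (MA.prog0 p4) [(146028888064, 8589934592), (38654705664, 38654705664), (549755813888, 549755813888)] :=
  cov_split 0 (by decide +kernel) N4A_t5 N4A_t6

theorem N4A_t4 : Cov 1 (MA.prog0 p4) [(146028888064, 8589934592), (115964116992, 38654705664), (549755813888, 549755813888)] :=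
  cov_split 1 (by decide +kernel) N4A_t7 N4A_t8

theorem N4A_t1 : Cov 1 (MA.prog0 p4) [(146028888064, 8589934592), (77309411328, 77309411328), (549755813888, 549755813888)] :=
  cov_split 1 (by decide +kernel) N4A_t3 N4A_t4

theorem N4A_t2 : Cov 1 (MA.prog0 p4) [(163208757248, 8589934592), (77309411328, 77309411328), (549755813888, 549755813888)] :=
  cov_split 1 (by decide +kernel) N4A_t9 N4A_t10

theorem N4A : Cov 1 (MA.prog0 p4) [(154618822656, 17179869184), (77309411328, 77309411328), (549755813888, 549755813888)] :=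
  cov_split 0 (by decide +kernel) N4A_t1 N4A_t2

theorem N4B0_t3 : Cov 1 (MB.prog0 p4) [(146028888064, 8589934592), (27487895552, 27487895552), (549755813888, 549755813888)] :=
  cov_split 1 (by decide +kernel) N4B0_t5 N4B0_t6

theorem N4B0_t1 : Cov 1 (MB.prog0 p4) [(146028888064, 8589934592), (54975791104, 54975791104), (549755813888, 549755813888)] :=
  cov_split 1 (by decide +kernel) N4B0_t3 N4B0_t4

theorem N4B0_t2 : Cov 1 (MB.prog0 p4) [(163208757248, 8589934592), (54975791104, 54975791104), (549755813888, 549755813888)] :=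
  cov_split 1 (by decide +kernel) N4B0_t7 N4B0_t8

theorem N4B0 : Cov 1 (MB.prog0 p4) [(154618822656, 17179869184), (54975791104, 54975791104), (549755813888, 549755813888)] :=
  cov_split 0 (by decide +kernel) N4B0_t1 N4B0_t2

end Pool.Agent.helper12.KC
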