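import Pool.Agent.helper12.GP.FAP
import Pool.Agent.helper12.GP.LAP
import Pool.Agent.helper12.GP.LBP
import Pool.Agent.helper12.GP.MBP
import Pool.Agent.helper12.KC.P

/-!
Generated certificates.
-/

namespace Pool.Agent.helper12.KC

open Pool.Agent.helper31.IX (Cov cov_split)
open Pool.Agent.helper12.GP
open Pool.Agent.helper14.QF (cov_E)

mutual
theorem N4B1_t1 : Cov 1 (MB.prog0 p4) [(146028888064, 8589934592), (142936637440, 32986103808), (386547056640, 386547056640)] :=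
  cov_E (MB.chkB0_eq p4) (.n 1 (.n 2 (.n 0 (.n 2 .l .l) (.n 2 .l .l)) (.n 2 (.n 1 .l .l) (.n 2 .l .l))) (.n 1 (.n 2 (.n 2 .l .l) (.n 2 .l .l)) (.n 2 (.n 2 .l .l) (.n 2 .l .l))))
    [(146028888064, 8589934592), (142936637440, 32986103808), (386547056640, 386547056640)] rfl (by decide +kernel)
theorem N4B1_t2 : Cov 1 (MB.prog0 p4) [(163208757248, 8589934592), (142936637440, 32986103808), (386547056640, 386547056640)] :=
  cov_E (MB.chkB0_eq p4) (.n 1 (.n 1 (.n 2 (.n 2 .l .l) (.n 2 .l .l)) (.n 2 (.n 2 .l .l) (.n 2 .l .l))) (.n 1 (.n 2 (.n 2 .l .l) (.n 2 .l .l)) (.n 2 (.n 2 .l .l) (.n 2 .l .l))))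
    [(163208757248, 8589934592), (142936637440, 32986103808), (386547056640, 386547056640)] rfl (by decide +kernel)
end

mutual
theorem N4B2_t1 : Cov 1 (MB.prog0 p4) [(146028888064, 8589934592), (225399799808, 49478107136), (241591910400, 241591910400)] :=
  cov_E (MB.chkB0_eq p4) (.n 1 (.n 2 (.n 2 .l (.n 0 .l .l)) (.n 0 (.n 1 .l .l) (.n 2 .l .l))) (.n 2 (.n 2 .l .l) (.n 0 (.n 1 .l .l) (.n 1 .l .l))))
    [(146028888064, 8589934592), (225399799808, 49478107136), (241591910400, 241591910400)] rfl (by decide +kernel)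
theorem N4B2_t2 : Cov 1 (MB.prog0 p4) [(163208757248, 8589934592), (225399799808, 49478107136), (241591910400, 241591910400)] :=
  cov_E (MB.chkB0_eq p4) (.n 1 (.n 2 (.n 2 .l (.n 0 .l .l)) (.n 0 (.n 2 .l .l) (.n 1 .l .l))) (.n 2 (.n 2 .l (.n 0 .l .l)) (.n 0 (.n 1 .l .l) (.n 1 .l .l))))
    [(163208757248, 8589934592), (225399799808, 49478107136), (241591910400, 241591910400)] rfl (by decide +kernel)
end

mutual
theorem N5A_t1 : Cov 1 (LA.prog0 p5) [(154618822656, 17179869184), (38654705664, 38654705664), (549755813888, 549755813888)] :=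
  cov_E (LA.chkB0_eq p5) (.n 1 (.n 2 (.n 2 (.n 2 .l .l) (.n 2 .l .l)) (.n 2 (.n 0 .l .l) .l)) (.n 2 (.n 2 (.n 2 .l .l) (.n 2 .l .l)) (.n 0 (.n 2 .l .l) (.n 2 .l .l))))
    [(154618822656, 17179869184), (38654705664, 38654705664), (549755813888, 549755813888)] rfl (by decide +kernel)
theorem N5A_t2 : Cov 1 (LA.prog0 p5) [(154618822656, 17179869184), (115964116992, 38654705664), (549755813888, 549755813888)] :=
  cov_E (LA.chkB0_eq p5) (.n 1 (.n 2 (.n 2 (.n 2 .l .l) (.n 2 .l .l)) (.n 0 (.n 2 .l .l) (.n 2 .l .l))) (.n 0 (.n 2 (.n 2 (.n 2 .l .l) (.n 2 .l .l)) (.n 0 (.n 2 .l .l) (.n 2 .l .l))) (.n 2 (.n 2 (.n 2 .l .l) (.n 2 .l .l)) (.n 1 (.n 2 .l .l) (.n 2 .l .l)))))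
    [(154618822656, 17179869184), (115964116992, 38654705664), (549755813888, 549755813888)] rfl (by decide +kernel)
end

mutual
theorem N5B0_t1 : Cov 1 (LB.prog0 p5) [(154618822656, 17179869184), (27487895552, 27487895552), (549755813888, 549755813888)] :=
  cov_E (LB.chkB0_eq p5) (.n 1 (.n 2 (.n 2 .l (.n 0 .l .l)) (.n 0 (.n 2 .l .l) (.n 2 .l .l))) (.n 1 (.n 2 (.n 2 .l .l) (.n 2 .l .l)) (.n 2 (.n 2 .l .l) (.n 0 (.n 2 .l .l) (.n 2 .l .l)))))
    [(154618822656, 17179869184), (27487895552, 27487895552), (549755813888, 549755813888)] rfl (by decide +kernel)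
theorem N5B0_t3 : Cov 1 (LB.prog0 p5) [(154618822656, 17179869184), (68719738880, 13743947776), (549755813888, 549755813888)] :=
  cov_E (LB.chkB0_eq p5) (.n 2 (.n 2 (.n 0 .l .l) (.n 2 .l (.n 0 .l .l))) (.n 0 (.n 1 (.n 2 .l .l) (.n 2 .l (.n 0 .l .l))) (.n 2 (.n 2 .l .l) (.n 1 .l (.n 2 .l .l)))))
    [(154618822656, 17179869184), (68719738880, 13743947776), (549755813888, 549755813888)] rfl (by decide +kernel)
end

mutual
theorem N5B0_t5 : Cov 1 (LB.prog0 p5) [(154618822656, 17179869184), (96207634432, 13743947776), (274877906944, 274877906944)] :=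
  cov_E (LB.chkB0_eq p5) (.n 2 (.n 2 .l (.n 0 .l .l)) (.n 0 (.n 2 .l .l) (.n 2 .l .l)))
    [(154618822656, 17179869184), (96207634432, 13743947776), (274877906944, 274877906944)] rfl (by decide +kernel)
theorem N5B0_t6 : Cov 1 (LB.prog0 p5) [(154618822656, 17179869184), (96207634432, 13743947776), (824633720832, 274877906944)] :=
  cov_E (LB.chkB0_eq p5) (.n 0 (.n 2 (.n 2 .l (.n 0 .l .l)) (.n 1 (.n 2 .l .l) (.n 2 .l (.n 0 .l .l)))) (.n 1 (.n 2 (.n 2 .l .l) (.n 2 .l (.n 0 .l .l))) (.n 2 (.n 2 .l .l) (.n 0 (.n 2 .l .l) (.n 2 .l (.n 0 .l .l))))))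
    [(154618822656, 17179869184), (96207634432, 13743947776), (824633720832, 274877906944)] rfl (by decide +kernel)
end

mutual
theorem N5B1_t3 : Cov 1 (LB.prog0 p5) [(146028888064, 8589934592), (126443585536, 16493051904), (386547056640, 386547056640)] :=
  cov_E (LB.chkB0_eq p5) (.n 1 (.n 2 (.n 2 .l .l) (.n 2 (.n 0 .l .l) (.n 2 .l .l))) (.n 2 (.n 2 .l .l) (.n 2 (.n 0 .l .l) (.n 2 .l (.n 0 .l .l)))))
    [(146028888064, 8589934592), (126443585536, 16493051904), (386547056640, 386547056640)] rfl (by decide +kernel)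
theorem N5B1_t4 : Cov 1 (LB.prog0 p5) [(146028888064, 8589934592), (159429689344, 16493051904), (386547056640, 386547056640)] :=
  cov_E (LB.chkB0_eq p5) (.n 2 (.n 2 (.n 1 .l .l) (.n 2 .l (.n 0 .l .l))) (.n 1 (.n 2 (.n 2 .l .l) (.n 0 (.n 2 .l .l) (.n 2 .l .l))) (.n 2 (.n 2 .l (.n 0 .l .l)) (.n 0 (.n 2 .l (.n 0 .l .l)) (.n 2 .l (.n 1 .l .l))))))
    [(146028888064, 8589934592), (159429689344, 16493051904), (386547056640, 386547056640)] rfl (by decide +kernel)
end

mutual
theorem N5B1_t5 : Cov 1 (LB.prog0 p5) [(163208757248, 8589934592), (126443585536, 16493051904), (386547056640, 386547056640)] :=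
  cov_E (LB.chkB0_eq p5) (.n 1 (.n 2 (.n 2 .l .l) (.n 2 (.n 0 .l .l) (.n 2 .l (.n 0 .l .l)))) (.n 2 (.n 2 .l (.n 0 .l .l)) (.n 2 (.n 2 .l .l) (.n 0 (.n 2 .l .l) (.n 2 .l (.n 0 .l .l))))))
    [(163208757248, 8589934592), (126443585536, 16493051904), (386547056640, 386547056640)] rfl (by decide +kernel)
theorem N5B1_t7 : Cov 1 (LB.prog0 p5) [(163208757248, 8589934592), (159429689344, 16493051904), (193273528320, 193273528320)] :=
  cov_E (LB.chkB0_eq p5) (.n 2 (.n 2 .l (.n 0 .l .l)) (.n 1 (.n 2 .l .l) (.n 2 .l .l)))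
    [(163208757248, 8589934592), (159429689344, 16493051904), (193273528320, 193273528320)] rfl (by decide +kernel)
end

mutual
theorem N5B1_t9 : Cov 1 (LB.prog0 p5) [(163208757248, 8589934592), (151183163392, 8246525952), (579820584960, 193273528320)] :=
  cov_E (LB.chkB0_eq p5) (.n 2 (.n 2 .l (.n 0 .l .l)) (.n 0 (.n 2 .l (.n 0 .l .l)) (.n 1 (.n 2 .l .l) (.n 2 .l .l))))
    [(163208757248, 8589934592), (151183163392, 8246525952), (579820584960, 193273528320)] rfl (by decide +kernel)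
theorem N5B1_t10 : Cov 1 (LB.prog0 p5) [(163208757248, 8589934592), (167676215296, 8246525952), (579820584960, 193273528320)] :=
  cov_E (LB.chkB0_eq p5) (.n 0 (.n 2 (.n 2 .l .l) (.n 1 (.n 2 .l .l) (.n 2 .l (.n 0 .l .l)))) (.n 2 (.n 2 .l (.n 0 .l .l)) (.n 1 (.n 2 .l (.n 0 .l .l)) (.n 2 .l (.n 2 .l .l)))))
    [(163208757248, 8589934592), (167676215296, 8246525952), (579820584960, 193273528320)] rfl (by decide +kernel)
end

mutual
theorem N5B2_t3 : Cov 1 (LB.prog0 p5) [(146028888064, 8589934592), (200660746240, 24739053568), (241591910400, 241591910400)] :=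
  cov_E (LB.chkB0_eq p5) (.n 1 (.n 2 (.n 2 .l (.n 0 .l .l)) (.n 0 (.n 2 .l (.n 0 .l .l)) (.n 2 .l (.n 1 .l .l)))) (.n 2 (.n 0 (.n 2 .l .l) (.n 2 .l .l)) (.n 2 (.n 2 .l (.n 0 .l .l)) (.n 0 (.n 1 .l .l) (.n 2 .l .l)))))
    [(146028888064, 8589934592), (200660746240, 24739053568), (241591910400, 241591910400)] rfl (by decide +kernel)
theorem N5B2_t5 : Cov 1 (LB.prog0 p5) [(146028888064, 8589934592), (237769326592, 12369526784), (241591910400, 241591910400)] :=
  cov_E (LB.chkB0_eq p5) (.n 2 (.n 2 (.n 0 .l .l) (.n 2 .l .l)) (.n 0 (.n 2 (.n 1 .l .l) (.n 2 .l (.n 0 .l .l))) (.n 1 (.n 2 .l (.n 0 .l .l)) (.n 2 .l (.n 2 .l .l)))))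
    [(146028888064, 8589934592), (237769326592, 12369526784), (241591910400, 241591910400)] rfl (by decide +kernel)
end

mutual
theorem N5B2_t6 : Cov 1 (LB.prog0 p5) [(146028888064, 8589934592), (262508380160, 12369526784), (241591910400, 241591910400)] :=
  cov_E (LB.chkB0_eq p5) (.n 2 (.n 2 (.n 0 .l .l) (.n 2 .l (.n 0 .l .l))) (.n 0 (.n 2 (.n 2 .l .l) (.n 0 (.n 2 .l .l) (.n 2 .l .l))) (.n 2 (.n 2 .l .l) (.n 1 (.n 2 .l .l) (.n 2 .l .l)))))
    [(146028888064, 8589934592), (262508380160, 12369526784), (241591910400, 241591910400)] rfl (by decide +kernel)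
theorem N5B2_t9 : Cov 1 (LB.prog0 p5) [(163208757248, 8589934592), (188291219456, 12369526784), (241591910400, 241591910400)] :=
  cov_E (LB.chkB0_eq p5) (.n 1 (.n 2 (.n 2 .l .l) (.n 2 (.n 0 .l .l) (.n 2 .l .l))) (.n 2 (.n 2 .l .l) (.n 0 (.n 2 .l .l) (.n 2 .l (.n 0 .l .l)))))
    [(163208757248, 8589934592), (188291219456, 12369526784), (241591910400, 241591910400)] rfl (by decide +kernel)
end

mutual
theorem N5B2_t10 : Cov 1 (LB.prog0 p5) [(163208757248, 8589934592), (213030273024, 12369526784), (241591910400, 241591910400)] :=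
  cov_E (LB.chkB0_eq p5) (.n 2 (.n 2 (.n 0 .l .l) (.n 2 .l (.n 0 .l .l))) (.n 0 (.n 2 (.n 1 .l .l) (.n 2 .l (.n 0 .l .l))) (.n 2 (.n 2 .l .l) (.n 1 (.n 2 .l .l) (.n 2 .l .l)))))
    [(163208757248, 8589934592), (213030273024, 12369526784), (241591910400, 241591910400)] rfl (by decide +kernel)
theorem N5B2_t11 : Cov 1 (LB.prog0 p5) [(163208757248, 8589934592), (237769326592, 12369526784), (241591910400, 241591910400)] :=
  cov_E (LB.chkB0_eq p5) (.n 2 (.n 2 (.n 2 .l .l) (.n 0 (.n 1 .l .l) (.n 1 .l .l))) (.n 0 (.n 2 (.n 2 .l .l) (.n 1 (.n 2 .l .l) (.n 2 .l .l))) (.n 2 (.n 2 .l (.n 0 .l .l)) (.n 1 (.n 2 .l .l) (.n 2 .l .l)))))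
    [(163208757248, 8589934592), (237769326592, 12369526784), (241591910400, 241591910400)] rfl (by decide +kernel)
end

mutual
theorem N5B2_t12 : Cov 1 (LB.prog0 p5) [(163208757248, 8589934592), (262508380160, 12369526784), (241591910400, 241591910400)] :=
  cov_E (LB.chkB0_eq p5) (.n 2 (.n 2 (.n 2 .l (.n 0 .l .l)) (.n 0 (.n 1 .l .l) (.n 2 .l .l))) (.n 0 (.n 2 (.n 2 .l (.n 0 .l .l)) (.n 1 (.n 2 .l .l) (.n 2 .l .l))) (.n 1 (.n 2 (.n 2 .l .l) (.n 2 .l (.n 0 .l .l))) (.n 2 (.n 2 .l .l) (.n 2 .l (.n 0 .l .l))))))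
    [(163208757248, 8589934592), (262508380160, 12369526784), (241591910400, 241591910400)] rfl (by decide +kernel)
theorem FA : Cov 1 (FA.prog0 pF) [(154618822656, 17179869184), (27487895552, 27487895552), (549755813888, 549755813888)] :=
  cov_E (FA.chkB0_eq pF) (.n 1 (.n 1 (.n 2 (.n 2 .l .l) (.n 2 .l .l)) (.n 2 (.n 2 .l .l) (.n 2 .l (.n 0 .l .l)))) (.n 2 (.n 2 (.n 2 .l (.n 0 .l .l)) (.n 0 (.n 1 .l .l) (.n 1 .l .l))) (.n 0 (.n 1 (.n 2 .l .l) (.n 2 .l .l)) (.n 1 (.n 2 .l .l) (.n 2 .l .l)))))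
    [(154618822656, 17179869184), (27487895552, 27487895552), (549755813888, 549755813888)] rfl (by decide +kernel)
end

theorem N4B1 : Cov 1 (MB.prog0 p4) [(154618822656, 17179869184), (142936637440, 32986103808), (386547056640, 386547056640)] :=
  cov_split 0 (by decide +kernel) N4B1_t1 N4B1_t2

theorem N4B2 : Cov 1 (MB.prog0 p4) [(154618822656, 17179869184), (225399799808, 49478107136), (241591910400, 241591910400)] :=
  cov_split 0 (by decide +kernel) N4B2_t1 N4B2_t2

theorem N5A : Cov 1 (LA.prog0 p5) [(154618822656, 17179869184), (77309411328, 77309411328), (549755813888, 549755813888)] :=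
  cov_split 1 (by decide +kernel) N5A_t1 N5A_t2

theorem N5B0_t4 : Cov 1 (LB.prog0 p5) [(154618822656, 17179869184), (96207634432, 13743947776), (549755813888, 549755813888)] :=
  cov_split 2 (by decide +kernel) N5B0_t5 N5B0_t6

theorem N5B0_t2 : Cov 1 (LB.prog0 p5) [(154618822656, 17179869184), (82463686656, 27487895552), (549755813888, 549755813888)] :=
  cov_split 1 (by decide +kernel) N5B0_t3 N5B0_t4

theorem N5B0 : Cov 1 (LB.prog0 p5) [(154618822656, 17179869184), (54975791104, 54975791104), (549755813888, 549755813888)] :=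
  cov_split 1 (by decide +kernel) N5B0_t1 N5B0_t2

theorem N5B1_t1 : Cov 1 (LB.prog0 p5) [(146028888064, 8589934592), (142936637440, 32986103808), (386547056640, 386547056640)] :=
  cov_split 1 (by decide +kernel) N5B1_t3 N5B1_t4

theorem N5B1_t8 : Cov 1 (LB.prog0 p5) [(163208757248, 8589934592), (159429689344, 16493051904), (579820584960, 193273528320)] :=
  cov_split 1 (by decide +kernel) N5B1_t9 N5B1_t10

theorem N5B1_t6 : Cov 1 (LB.prog0 p5) [(163208757248, 8589934592), (159429689344, 16493051904), (386547056640, 386547056640)] :=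
  cov_split 2 (by decide +kernel) N5B1_t7 N5B1_t8

theorem N5B1_t2 : Cov 1 (LB.prog0 p5) [(163208757248, 8589934592), (142936637440, 32986103808), (386547056640, 386547056640)] :=
  cov_split 1 (by decide +kernel) N5B1_t5 N5B1_t6

theorem N5B1 : Cov 1 (LB.prog0 p5) [(154618822656, 17179869184), (142936637440, 32986103808), (386547056640, 386547056640)] :=
  cov_split 0 (by decide +kernel) N5B1_t1 N5B1_t2

theorem N5B2_t4 : Cov 1 (LB.prog0 p5) [(146028888064, 8589934592), (250138853376, 24739053568), (241591910400, 241591910400)] :=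
  cov_split 1 (by decide +kernel) N5B2_t5 N5B2_t6

theorem N5B2_t1 : Cov 1 (LB.prog0 p5) [(146028888064, 8589934592), (225399799808, 49478107136), (241591910400, 241591910400)] :=
  cov_split 1 (by decide +kernel) N5B2_t3 N5B2_t4

theorem N5B2_t7 : Cov 1 (LB.prog0 p5) [(163208757248, 8589934592), (200660746240, 24739053568), (241591910400, 241591910400)] :=
  cov_split 1 (by decide +kernel) N5B2_t9 N5B2_t10

theorem N5B2_t8 : Cov 1 (LB.prog0 p5) [(163208757248, 8589934592), (250138853376, 24739053568), (241591910400, 241591910400)] :=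
  cov_split 1 (by decide +kernel) N5B2_t11 N5B2_t12

theorem N5B2_t2 : Cov 1 (LB.prog0 p5) [(163208757248, 8589934592), (225399799808, 49478107136), (241591910400, 241591910400)] :=
  cov_split 1 (by decide +kernel) N5B2_t7 N5B2_t8

theorem N5B2 : Cov 1 (LB.prog0 p5) [(154618822656, 17179869184), (225399799808, 49478107136), (241591910400, 241591910400)] :=
  cov_split 0 (by decide +kernel) N5B2_t1 N5B2_t2

end Pool.Agent.helper12.KC
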