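import Pool.Agent.helper12.GP.FBP
import Pool.Agent.helper12.KC.P

/-!
Generated certificates.
-/

namespace Pool.Agent.helper12.KC

open Pool.Agent.helper31.IX (Cov cov_split)
open Pool.Agent.helper12.GP
open Pool.Agent.helper14.QF (cov_E)

mutual
theorem FB_t3 : Cov 1 (FB.prog0 pF) [(154618822656, 17179869184), (34359738368, 34359738368), (549755813888, 549755813888)] :=
  cov_E (FB.chkB0_eq pF) (.n 1 (.n 2 (.n 2 .l .l) (.n 2 .l .l)) (.n 2 (.n 2 .l (.n 0 .l .l)) (.n 0 (.n 2 .l .l) (.n 2 .l .l))))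
    [(154618822656, 17179869184), (34359738368, 34359738368), (549755813888, 549755813888)] rfl (by decide +kernel)
theorem FB_t4 : Cov 1 (FB.prog0 pF) [(154618822656, 17179869184), (103079215104, 34359738368), (549755813888, 549755813888)] :=
  cov_E (FB.chkB0_eq pF) (.n 0 (.n 1 (.n 2 (.n 2 .l .l) (.n 2 .l .l)) (.n 2 (.n 2 .l .l) (.n 2 .l (.n 0 .l .l)))) (.n 1 (.n 2 (.n 2 .l .l) (.n 2 .l (.n 0 .l .l))) (.n 2 (.n 2 .l .l) (.n 1 (.n 2 .l .l) (.n 2 .l .l)))))
    [(154618822656, 17179869184), (103079215104, 34359738368), (549755813888, 549755813888)] rfl (by decide +kernel)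
end

mutual
theorem FB_t7 : Cov 1 (FB.prog0 pF) [(146028888064, 8589934592), (171798691840, 34359738368), (549755813888, 549755813888)] :=
  cov_E (FB.chkB0_eq pF) (.n 1 (.n 2 (.n 2 .l .l) (.n 0 (.n 2 .l .l) (.n 2 .l .l))) (.n 2 (.n 2 .l .l) (.n 0 (.n 2 .l .l) (.n 2 .l .l))))
    [(146028888064, 8589934592), (171798691840, 34359738368), (549755813888, 549755813888)] rfl (by decide +kernel)
theorem FB_t8 : Cov 1 (FB.prog0 pF) [(163208757248, 8589934592), (171798691840, 34359738368), (549755813888, 549755813888)] :=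
  cov_E (FB.chkB0_eq pF) (.n 1 (.n 2 (.n 2 .l (.n 0 .l .l)) (.n 1 (.n 2 .l .l) (.n 2 .l .l))) (.n 2 (.n 2 .l (.n 0 .l .l)) (.n 1 (.n 2 .l .l) (.n 2 .l .l))))
    [(163208757248, 8589934592), (171798691840, 34359738368), (549755813888, 549755813888)] rfl (by decide +kernel)
theorem FB_t6 : Cov 1 (FB.prog0 pF) [(154618822656, 17179869184), (240518168576, 34359738368), (549755813888, 549755813888)] :=
  cov_E (FB.chkB0_eq pF) (.n 1 (.n 2 (.n 2 (.n 0 .l .l) (.n 2 .l .l)) (.n 0 (.n 2 .l (.n 0 .l .l)) (.n 0 (.n 2 .l .l) (.n 2 .l .l)))) (.n 2 (.n 0 (.n 2 .l .l) (.n 2 .l .l)) (.n 2 (.n 2 .l .l) (.n 0 (.n 0 .l .l) (.n 0 .l .l)))))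
    [(154618822656, 17179869184), (240518168576, 34359738368), (549755813888, 549755813888)] rfl (by decide +kernel)
end

theorem FB_t1 : Cov 1 (FB.prog0 pF) [(154618822656, 17179869184), (68719476736, 68719476736), (549755813888, 549755813888)] :=
  cov_split 1 (by decide +kernel) FB_t3 FB_t4

theorem FB_t5 : Cov 1 (FB.prog0 pF) [(154618822656, 17179869184), (171798691840, 34359738368), (549755813888, 549755813888)] :=
  cov_split 0 (by decide +kernel) FB_t7 FB_t8

theorem FB_t2 : Cov 1 (FB.prog0 pF) [(154618822656, 17179869184), (206158430208, 68719476736), (549755813888, 549755813888)] :=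
  cov_split 1 (by decide +kernel) FB_t5 FB_t6

theorem FB : Cov 1 (FB.prog0 pF) [(154618822656, 17179869184), (137438953472, 137438953472), (549755813888, 549755813888)] :=
  cov_split 1 (by decide +kernel) FB_t1 FB_t2

end Pool.Agent.helper12.KC
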